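import Pool.Agent.H.MP_b9fb92_an.C

namespace Pool.Agent.Results.MP_b9fb92_an.Yes

open Set Filter Topology Complex Pool.Agent.H.MP_b9fb92_an

variable {d : ℕ}

/-- The interval `I = [0, μ_1 + ⋯ + μ_d)`. -/
def II (μ : Fin d → ℝ) : Set ℝ := Ico 0 (∑ k, μ k)

/-- The subinterval `I_j = [x_{j-1}, x_j)`. -/
def Ij (μ : Fin d → ℝ) (j : Fin d) : Set ℝ :=
  Ico (∑ k with k < j, μ k) (∑ k with k ≤ j, μ k)

/-- The translation `τ_j`. -/
def tau (p : Equiv.Perm (Fin d)) (μ : Fin d → ℝ) (j : Fin d) : ℝ :=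
  ∑ k with p k < p j, μ k - ∑ k with k < j, μ k

noncomputable def y (n j : ℕ) : ℝ :=
  if j = 0 then 0 else if j = 1 then 1 - r else if j ≤ n + 2 then 1 - r + (r ^ 2) ^ (n + 2 - j) else 2

noncomputable def lv (n j : ℕ) : ℝ := if j = 1 then 0 else (1 / 5) ^ (n + 2 - j)

noncomputable def f (x : ℝ) : ℝ := if x < 1 - r then x + (1 + r) else x - (1 - r)

lemma y_lt {n j : ℕ} (h : j < n + 3) : y n j < y n (j + 1) := by
  have p := pow_pos r0 2
  have := rb
  unfold y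
  rw [if_neg j.succ_ne_zero]
  split_ifs <;> try omega
  · linarith
  · linarith [pow_pos p (n + 2 - (j + 1))]
  · linarith [pow_lt_pow_right_of_lt_one₀ p (by linarith [r2])
      (show n + 2 - (j + 1) < n + 2 - j by omega)]
  · rw [show n + 2 - j = 0 by omega, pow_zero]; linarith

lemma y_mono (n : ℕ) : Monotone (y n) := monotone_nat_of_le_succ fun j => by
  rcases lt_or_ge j (n + 3) with h | h
  · exact (y_lt h).le
  · unfold y
    rw [if_neg j.succ_ne_zero]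
    split_ifs <;> first | omega | rfl

lemma y_sum (n j : ℕ) (h : j ≤ n + 3) :
    ∑ k : Fin (n + 3) with k.1 < j, (y n (k + 1) - y n k) = y n j := by
  rw [Finset.sum_filter, Fin.sum_univ_eq_sum_range
    (fun k => if k < j then y n (k + 1) - y n k else 0), ← Finset.sum_filter,
    show (Finset.range (n + 3)).filter (· < j) = Finset.range j by ext; simp; omega,
    Finset.sum_range_sub]
  simp [y]

lemma f_mem {x : ℝ} (h : x ∈ Ico (0 : ℝ) 2) : f x ∈ Ico (0 : ℝ) 2 := by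
  have := rb
  unfold f
  split_ifs <;> constructor <;> linarith [h.1, h.2]

lemma f_dense {x : ℝ} (h : x ∈ Ico (0 : ℝ) 2) :
    Ico (0 : ℝ) 2 ⊆ closure (range fun n : ℕ => f^[n] x) := by
  have : Fact ((0 : ℝ) < 2) := ⟨two_pos⟩
  have k : ∀ n : ℕ, f^[n] x ∈ Ico (0 : ℝ) 2 ∧
      ((f^[n] x : ℝ) : AddCircle (2 : ℝ)) = x + n • ((√2 : ℝ) : AddCircle (2 : ℝ)) := fun n => by
    induction n with
    | zero => simpa using h
    | succ n ih =>
      rw [Function.iterate_succ_apply', succ_nsmul, ← add_assoc, ← ih.2, ← AddCircle.coe_add]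
      refine ⟨f_mem ih.1, ?_⟩
      unfold f r
      split_ifs
      · congr 1; ring
      · rw [← AddCircle.coe_add_period 2]; congr 1; ring
  have dn : DenseRange (· • ((√2 : ℝ) : AddCircle (2 : ℝ)) : ℕ → _) :=
    denseRange_zsmul_iff_nsmul.1 (AddCircle.denseRange_zsmul_coe_iff.2
      (irrational_sqrt_two.div_natCast two_ne_zero))
  refine (Ico_subset_Icc_self.trans (closure_Ioo two_pos.ne).ge).trans
    (closure_minimal (fun z hz => mem_closure_iff.2 fun U hU hzU => ?_) isClosed_closure)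
  obtain ⟨n, t, ht, e⟩ := ((Homeomorph.addLeft (x : AddCircle (2 : ℝ))).surjective.denseRange.comp dn
    (by fun_prop)).exists_mem_open (QuotientAddGroup.isOpenMap_coe _ (hU.inter isOpen_Ioo))
    ⟨_, z, ⟨hzU, hz⟩, rfl⟩
  refine ⟨t, ht.1, n, (AddCircle.coe_eq_coe_iff_of_mem_Ico (p := (2 : ℝ)) (a := 0) (by
    simpa using (k n).1) (by simpa using Ioo_subset_Ico_self ht.2)).1 ((k n).2.trans e.symm)⟩

theorem result (d : ℕ) (hd : 3 ≤ d) : ∃ (p : Equiv.Perm (Fin d)) (μ : Fin d → ℝ) (f : ℝ → ℝ)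
    (X : Fin d → Set ℂ) (θ : Fin d → ℝ) (lam : Fin d → ℂ) (T : ℂ → ℂ) (h : ℝ → ℂ),
    (∀ k : ℕ, 1 ≤ k → k < d → p '' {i | i.1 < k} ≠ {i | i.1 < k}) ∧ (∀ j, 0 < μ j) ∧
    (∀ j, ∀ x ∈ Ij μ j, f x = x + tau p μ j) ∧
    (∀ x ∈ II μ, II μ ⊆ closure (range fun n : ℕ => f^[n] x)) ∧
    (∀ j, Convex ℝ (X j)) ∧ Pairwise (Function.onFun Disjoint X) ∧ ⋃ j, X j = univ ∧
    (∀ j, θ j ∈ Ico 0 (2 * Real.pi)) ∧ (∀ j, ∀ z ∈ X j, T z = exp (θ j * I) * z + lam j) ∧
    InjOn h (II μ) ∧ ContinuousOn h (II μ) ∧ (∀ j, IsEmbedding ((Ij μ j).domRestrict h)) ∧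
    (∀ j, MapsTo h (Ij μ j) (X j)) ∧ T '' (h '' II μ) = h '' II μ ∧
    (∀ x ∈ II μ, h (f x) = T (h x)) ∧
    (¬∃ z v : Fin d → ℂ, ∀ j, ∀ x ∈ Ij μ j, h x = z j + v j * x) ∧
    ¬∃ (z : Fin d → ℂ) (ρ a b : Fin d → ℝ), (∀ j, 0 < ρ j) ∧
      ∀ j, ∀ x ∈ Ij μ j, h x = z j + ρ j * exp ((a j * x + b j : ℝ) * I) := by
  obtain ⟨n, rfl⟩ : ∃ n, d = n + 3 := ⟨d - 3, by omega⟩
  obtain ⟨g, G⟩ := exG
  obtain ⟨b1, b2⟩ := rb
  set μ : Fin (n + 3) → ℝ := fun k => y n (k + 1) - y n k with hμ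
  have s1 : ∀ j : Fin (n + 3), ∑ k with k < j, μ k = y n j := fun j => y_sum n j j.2.le
  have s2 : ∀ j : Fin (n + 3), ∑ k with k ≤ j, μ k = y n (j + 1) := fun j => by
    simpa only [Nat.lt_succ_iff, Fin.val_fin_le] using y_sum n (j + 1) j.2
  have y3 : y n (n + 3) = 2 := by simp [y]
  have y0 : y n 0 = 0 := by simp [y]
  have y1 : y n 1 = 1 - r := by simp [y]
  have s3 : ∑ k, μ k = 2 := by simpa [y3, hμ] using y_sum n (n + 3) le_rfl
  have eI : II μ = Ico 0 2 := by rw [II, s3]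
  have eJ : ∀ j, Ij μ j = Ico (y n j) (y n (j + 1)) := fun j => by rw [Ij, s1, s2]
  have sub : ∀ j, Ij μ j ⊆ Icc 0 2 := fun j x hx => by
    rw [eJ] at hx
    exact ⟨(y0.ge.trans (y_mono n (Nat.zero_le _))).trans hx.1,
      hx.2.le.trans ((y_mono n j.2).trans y3.le)⟩
  have sh : ∀ x ∈ Icc (0 : ℝ) 2, x + (r - 1) ∈ Icc (r - 1) (1 + r) := fun x hx =>
    ⟨by linarith [hx.1], by linarith [hx.2]⟩
  have inj : InjOn (fun x => H g (x + (r - 1))) (Icc 0 2) := fun x hx z hz e =>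
    add_right_cancel (G.ih (sh x hx) (sh z hz) e)
  have ct : Continuous fun x => H g (x + (r - 1)) := G.hc.comp (by fun_prop)
  have an : ∀ w : ℂ, w.re ^ 2 + w.im ^ 2 = 1 → ∃ θ ∈ Ico 0 (2 * Real.pi), exp (θ * I) = w := by
    intro w hw
    obtain ⟨θ, e⟩ := (norm_eq_one_iff w).1 (by
      rw [← sq_eq_sq₀ (norm_nonneg _) zero_le_one, Complex.sq_norm, normSq_apply]; linarith)
    refine ⟨toIcoMod Real.two_pi_pos 0 θ, by simpa using toIcoMod_mem_Ico Real.two_pi_pos 0 θ, ?_⟩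
    rw [← e, ← toIcoMod_add_toIcoDiv_zsmul Real.two_pi_pos 0 θ, toIcoMod_add_zsmul,
      toIcoMod_toIcoMod]
    push_cast
    rw [add_mul, Complex.exp_add, zsmul_eq_mul, mul_assoc, exp_int_mul_two_pi_mul_I, mul_one]
  obtain ⟨α, α1, α2⟩ := an ⟨3 / 5, 4 / 5⟩ (by norm_num)
  obtain ⟨β, β1, β2⟩ := an ⟨3 / 5, -4 / 5⟩ (by norm_num)
  let T : ℂ → ℂ := fun z => if z.re < 0 then ⟨3 / 5, 4 / 5⟩ * z + ⟨7 / 5, -1 / 5⟩ else
    if z.re < 1 then ⟨3 / 5, -4 / 5⟩ * z + ⟨-1 / 5, 3 / 5⟩ else ⟨3 / 5, 4 / 5⟩ * z + ⟨-1 / 5, -1⟩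
  have cj : ∀ x ∈ II μ, H g (f x + (r - 1)) = T (H g (x + (r - 1))) := fun x hx => by
    rw [eI] at hx
    have m := sh x (Ico_subset_Icc_self hx)
    have k0 := G.lz m
    have k1 := G.lk m 0
    simp only [pow_zero] at k1
    simp only [T, f, ← not_le, k0, k1]
    split_ifs <;> try linarith
    · rw [← G.RB2 ‹_› m.2]; congr 1; ring
    · rw [← G.RB1 ⟨‹_›, by linarith⟩]; congr 1; ring
    · rw [← G.RA m.1 (by linarith)]; congr 1; ring
  have nt : ∀ w : ℝ → ℂ, (∀ x ∈ Ij μ 1, H g (x + (r - 1)) = w x) → ∃ t,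
      w (1 - r + t) ≠ w (1 - r) ∧ 5 * (w (1 - r + r ^ 2 * t) - w (1 - r)) =
        w (1 - r + t) - w (1 - r) := fun w hw => by
    have e : Ij μ 1 = Ico (1 - r) (1 - r + (r ^ 2) ^ n) := by rw [eJ]; simp [y]
    have p := pow_pos (pow_pos r0 2) n
    have p1 : (r ^ 2) ^ n ≤ 1 := pow_le_one₀ (sq_nonneg _) (by linarith [r2])
    have k : ∀ t, 0 ≤ t → t < (r ^ 2) ^ n → w (1 - r + t) = g t := fun t t0 t1 => by
      rw [← hw _ (e ▸ ⟨by linarith, by linarith⟩), show 1 - r + t + (r - 1) = t by ring, G.pos t0,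
        G.p0 (by linarith)]
    have k0 : w (1 - r) = 0 := by simpa [G.b.1 0 le_rfl] using k 0 le_rfl p
    have hu : (r ^ 2) ^ n / 2 ∈ Icc (0 : ℝ) 1 := ⟨by linarith, by linarith⟩
    refine ⟨(r ^ 2) ^ n / 2, ?_, ?_⟩
    · rw [k _ hu.1 (by linarith), k0]
      exact fun z => by simpa [z] using G.s0 (half_pos p)
    · rw [k _ hu.1 (by linarith), k _ (ub 2 hu).1 (by nlinarith [r2]), k0, (G.e _ hu).1]
      apply Complex.ext <;> simp
  refine ⟨Equiv.subRight 1, μ, f, fun j => {z | ∀ i : Fin (n + 3), i ≠ 0 →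
    (lv n i ≤ z.re ↔ i ≤ j)}, fun j => if j = 0 ∨ j = Fin.last _ then α else β,
    fun j => if j = 0 then ⟨7 / 5, -1 / 5⟩ else if j = Fin.last _ then ⟨-1 / 5, -1⟩ else
      ⟨-1 / 5, 3 / 5⟩, T, fun x => H g (x + (r - 1)), fun k k1 k2 e => ?_,
    fun j => sub_pos.2 (y_lt j.2), fun j x hx => ?_, fun x hx => eI ▸ f_dense (eI ▸ hx),
    fun j => ?_, fun i j ij => ?_, eq_univ_of_forall fun z => ?_,
    fun j => by dsimp only; split_ifs <;> assumption, fun j z hz => ?_,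
    eI ▸ inj.mono Ico_subset_Icc_self, ct.continuousOn, fun j =>
      ((ct.comp continuous_subtype_val).isClosedEmbedding inj.injective).isEmbedding.comp
        (IsEmbedding.inclusion (sub j)), fun j x hx i hi => ?_, ?_, cj, ?_, ?_⟩
  · have := e.subset ⟨0, k1, rfl⟩
    simp [Fin.coe_neg_one] at this
    omega
  · rw [eJ] at hx
    rw [tau, s1, f]
    rcases eq_or_ne j 0 with rfl | j0
    · rw [if_pos (by simpa [y1] using hx.2), show Finset.univ.filter (fun k : Fin (n + 3) =>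
        Equiv.subRight 1 k < Equiv.subRight 1 0) = Finset.univ.erase 0 by
        ext k
        simp only [Finset.mem_filter, Finset.mem_univ, Equiv.subRight_apply, Fin.lt_def,
          Fin.coe_sub_one, Finset.mem_erase]
        split_ifs <;> simp_all <;> omega, Finset.sum_erase_eq_sub (Finset.mem_univ _), s3]
      simp [hμ, y0, y1]; ring
    · have j1 : 1 ≤ (j : ℕ) := Fin.pos_iff_ne_zero.2 j0
      rw [if_neg (not_lt.2 ((y1.ge.trans (y_mono n j1)).trans hx.1)), show Finset.univ.filter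
        (fun k : Fin (n + 3) => Equiv.subRight 1 k < Equiv.subRight 1 j) =
        (Finset.univ.filter (· < j)).erase 0 by
        ext k
        simp only [Finset.mem_filter, Finset.mem_univ, Equiv.subRight_apply, Fin.lt_def,
          Fin.coe_sub_one, Finset.mem_erase, ne_eq, Fin.ext_iff, Fin.val_zero, true_and]
        have := j.2
        split_ifs <;> omega, Finset.sum_erase_eq_sub (by simpa using Fin.pos_iff_ne_zero.2 j0), s1]
      simp [hμ, y0, y1]; ring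
  · simp only [ofPred_forall]
    refine convex_iInter fun i => convex_iInter fun _ => ?_
    by_cases c : i ≤ j
    · simpa [c] using convex_halfSpace_re_ge _
    · simpa [c] using convex_halfSpace_re_lt _
  · wlog h : i < j generalizing i j
    · exact (this j i ij.symm ((not_lt.1 h).lt_of_ne ij.symm)).symm
    exact disjoint_left.2 fun z a b => h.not_ge ((a j h.ne_bot).1 ((b j h.ne_bot).2 le_rfl))
  · obtain ⟨j, hj, mx⟩ := (Finset.univ.filter fun i : Fin (n + 3) =>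
      i = 0 ∨ lv n i ≤ z.re).exists_max_image id ⟨0, by simp⟩
    refine mem_iUnion.2 ⟨j, fun i hi => ⟨fun h => mx i (by simp [h]), fun h => le_trans ?_
      ((Finset.mem_filter.1 hj).2.resolve_left fun c => hi (le_bot_iff.1 (h.trans_eq c)))⟩⟩
    have : (i : ℕ) ≤ j := h
    have : (i : ℕ) ≠ 0 := fun c => hi (Fin.ext c)
    unfold lv
    split_ifs
    · rfl
    · positivity
    · omega
    · exact pow_le_pow_of_le_one (by norm_num) (by norm_num) (by omega)
  · have k0 := hz 1 (by simp)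
    have k1 := hz (Fin.last _) (by simp)
    have k2 : 1 ≤ j ↔ j ≠ 0 := Fin.pos_iff_ne_zero (a := j)
    simp only [lv, Fin.val_one, Fin.val_last, if_pos, Nat.sub_self, pow_zero,
      if_neg (show n + 2 ≠ 1 by omega), k2, Fin.last_le_iff] at k0 k1
    simp only [T, ← not_le, k0, k1, not_not]
    by_cases c : j = 0
    · simp [c, α2]
    · by_cases c' : j = Fin.last _
      · simp [c', α2]
      · simp [c, c', β2]
  · have m := sh x (sub j hx)
    rw [eJ] at hx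
    have : (i : ℕ) ≠ 0 := fun c => hi (Fin.ext c)
    refine Iff.trans (b := y n i ≤ x) ?_ ⟨fun h => not_lt.1 fun c =>
      (h.trans_lt hx.2).not_ge (y_mono n c), fun h => (y_mono n h).trans hx.1⟩
    unfold lv y
    split_ifs <;> try omega
    · rw [G.lz m]; constructor <;> intro <;> linarith
    · rw [G.lk m]; constructor <;> intro <;> linarith
  · rw [image_image, ← image_congr cj, ← image_image (fun x => H g (x + (r - 1))) f, eI]
    congr 1
    refine (image_subset_iff.2 fun x => f_mem).antisymm fun x hx => ?_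
    rcases lt_or_ge x (1 + r) with c | c
    · exact ⟨x + (1 - r), ⟨by linarith [hx.1], by linarith⟩, by
        rw [f, if_neg (by linarith [hx.1])]; ring⟩
    · exact ⟨x - (1 + r), ⟨by linarith, by linarith [hx.2]⟩, by
        rw [f, if_pos (by linarith [hx.2])]; ring⟩
  · rintro ⟨z, v, h⟩
    obtain ⟨t, h1, h2⟩ := nt _ (h 1)
    refine h1 (mul_left_cancel₀ (a := ((5 * r ^ 2 - 1 : ℝ) : ℂ))
      (ofReal_ne_zero.2 (by linarith [r2])) ?_)
    push_cast at h2 ⊢
    linear_combination h2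
  · rintro ⟨z, ρ, a, b, ρ0, h⟩
    obtain ⟨t, h1, h2⟩ := nt _ (h 1)
    have n0 := norm_exp_ofReal_mul_I (a 1 * (1 - r) + b 1)
    have n1 := norm_exp_ofReal_mul_I (a 1 * (1 - r + t) + b 1)
    have n2 := norm_exp_ofReal_mul_I (a 1 * (1 - r + r ^ 2 * t) + b 1)
    generalize exp (((a 1 * (1 - r) + b 1 : ℝ) : ℂ) * I) = e0 at *
    generalize exp (((a 1 * (1 - r + t) + b 1 : ℝ) : ℂ) * I) = e1 at *
    generalize exp (((a 1 * (1 - r + r ^ 2 * t) + b 1 : ℝ) : ℂ) * I) = e2 at *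
    have e : e1 = 5 * e2 - 4 * e0 := mul_left_cancel₀ (ofReal_ne_zero.2 (ρ0 1).ne')
      (by linear_combination -h2)
    have q : ∀ w : ℂ, ‖w‖ = 1 → w.re * w.re + w.im * w.im = 1 := fun w hw => by
      rw [← normSq_apply, ← Complex.sq_norm, hw, one_pow]
    have q0 := q _ n0
    have q1 := q _ n1
    have q2 := q _ n2
    simp [e] at q1
    have : e2 = e0 := Complex.ext (by nlinarith [sq_nonneg (e2.im - e0.im)])
      (by nlinarith [sq_nonneg (e2.re - e0.re)])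
    exact h1 (by rw [e, this]; ring)

end Pool.Agent.Results.MP_b9fb92_an.Yes
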